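import Pool.Agent.H77.INS.PNB

/-!
# MP_57ddd5_pr: module IN2
-/

set_option autoImplicit false

open MeasureTheory ProbabilityTheory
open scoped ENNReal

namespace Pool.Agent.H77.INS.IN2

open Pool.Agent.H95.INS Pool.Agent.H99.NS Pool.Agent.H22.LPP Pool.Agent.H77.INS
open Pool.Agent.H97.NF (PEnv eA eB PN)

theorem dep_spl {A : Set Site} {P : Env → Prop} (h : DepOn A P) (D : Dat) (out : Env) :
    DepOn A (fun ω => P (splice (Bx D) ω out)) := by
  intro ω ω' he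
  refine h _ _ fun x hx => ?_
  by_cases hb : x ∈ Bx D
  · rw [splice_of_mem _ _ hb, splice_of_mem _ _ hb, he x hx]
  · rw [splice_of_not_mem _ _ hb, splice_of_not_mem _ _ hb]

theorem dep_not {A : Set Site} {P : Env → Prop} (h : DepOn A P) : DepOn A (fun ω => ¬ P ω) := by
  intro ω ω' he
  simp only
  rw [h ω ω' he]

theorem dep_and {A B : Set Site} {P Q : Env → Prop} (h : DepOn A P) (h' : DepOn B Q) :
    DepOn (A ∪ B) (fun ω => P ω ∧ Q ω) := by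
  intro ω ω' he
  simp only
  rw [h ω ω' fun x hx => he x (Or.inl hx), h' ω ω' fun x hx => he x (Or.inr hx)]

theorem nr_sub {D : Dat} (hD : D.Ok) {s t : ℤ} (hs : -(4 * D.n) ≤ s) (ht : t ≤ 4 * D.n) :
    Nr D s t ⊆ Bx D := by
  rintro x ⟨h1, h2, h3⟩
  refine ⟨by omega, by omega, ?_⟩
  have hw := hD.w1
  have hA := hD.A2
  have h4 : D.A / 2 * D.w < D.A * D.w := by
    have : D.A / 2 < D.A := by omega
    exact mul_lt_mul_of_pos_right this (by omega)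
  exact lt_trans h3 h4

theorem eq_spl {D : Dat} (hD : D.Ok) {s t : ℤ} (hs : -(4 * D.n) ≤ s) (ht : t ≤ 4 * D.n)
    {P : Env → Prop} (h : DepOn (Nr D s t) P) (ω out : Env) :
    P (splice (Bx D) ω out) ↔ P ω :=
  iff_of_eq (h _ _ fun _ hx => splice_of_mem _ _ (nr_sub hD hs ht hx))

/-- the three slabs without highways -/
def slW (D : Dat) : Set Site :=
  Wd D (-(4 * D.n)) (-(3 * D.n)) ∪ Wd D (-(2 * D.n)) (2 * D.n) ∪ Wd D (3 * D.n) (4 * D.n)

/-- the three slabs without highways, narrow strip -/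
def slN (D : Dat) : Set Site :=
  Nr D (-(4 * D.n)) (-(3 * D.n)) ∪ Nr D (-(2 * D.n)) (2 * D.n) ∪ Nr D (3 * D.n) (4 * D.n)

theorem dep_Sm (h_DEP : T_DEP) (D : Dat) : DepOn (slW D) (fun ω => Sm D ω) := by
  have key : ∀ ω ω' : Env, (∀ x ∈ slW D, ω x = ω' x) → Sm D ω → Sm D ω' := by
    intro ω ω' he h
    have d := fun s t => (h_DEP D s t (1 / 1000) 0 0).1
    refine ⟨?_, ?_, ?_⟩
    · exact (iff_of_eq (d _ _ ω ω' fun x hx => he x (Or.inl (Or.inl hx)))).mp (h.s1)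
    · exact (iff_of_eq (d _ _ ω ω' fun x hx => he x (Or.inl (Or.inr hx)))).mp (h.s2)
    · exact (iff_of_eq (d _ _ ω ω' fun x hx => he x (Or.inr hx))).mp (h.s3)
  intro ω ω' he
  exact propext ⟨key ω ω' he, key ω' ω fun x hx => (he x hx).symm⟩

theorem dep_LO (h_DEP : T_DEP) (D : Dat) : DepOn (slN D) (fun ω => LO D ω) := by
  have key : ∀ ω ω' : Env, (∀ x ∈ slN D, ω x = ω' x) → LO D ω → LO D ω' := by
    intro ω ω' he h
    have d := fun s t x y => (h_DEP D s t 0 x y).2.2.2.2.2.1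
    refine ⟨fun y h1 h2 => ?_, fun y y' h1 h2 h3 h4 => ?_, fun y h1 h2 => ?_⟩
    · exact (iff_of_eq (d _ _ _ _ ω ω' fun x hx => he x (Or.inl (Or.inl hx)))).mp (h.l1 y h1 h2)
    · exact (iff_of_eq (d _ _ _ _ ω ω' fun x hx => he x (Or.inl (Or.inr hx)))).mp (h.l2 y y' h1 h2 h3 h4)
    · exact (iff_of_eq (d _ _ _ _ ω ω' fun x hx => he x (Or.inr hx))).mp (h.l3 y h1 h2)
  intro ω ω' he
  exact propext ⟨key ω ω' he, key ω' ω fun x hx => (he x hx).symm⟩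

theorem slN_sub {D : Dat} (hD : D.Ok) : slN D ⊆ Bx D := by
  have hn := hD.n1
  rintro x ((hx | hx) | hx)
  · exact nr_sub hD (by omega) (by omega) hx
  · exact nr_sub hD (by omega) (by omega) hx
  · exact nr_sub hD (by omega) (by omega) hx

theorem LO_spl (h_DEP : T_DEP) {D : Dat} (hD : D.Ok) (ω out : Env) :
    LO D (splice (Bx D) ω out) ↔ LO D ω :=
  iff_of_eq (dep_LO h_DEP D _ _ fun _ hx => splice_of_mem _ _ (slN_sub hD hx))

theorem hws_mono {D : Dat} (hD : D.Ok) {ω : Env} {s t : ℤ} (h : HWs D ω s t 1) :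
    HWs D ω s t (999 / 1000) := by
  obtain ⟨g, h1, h2⟩ := h
  refine ⟨g, h1, le_trans ?_ h2⟩
  have hK := hD.K0
  have hA : (2 : ℝ) ≤ D.A := by exact_mod_cast hD.A2
  have h3 : 0 ≤ D.K * (1 + 16 * D.A) := mul_nonneg hK (by linarith)
  have h4 : 0 ≤ D.H := by linarith [hD.c2]
  have h5 := mul_nonneg h4 hD.f0.le
  nlinarith

theorem list_bd {α : Type*} [MeasurableSpace α] (μ : Measure α) (x : ℝ≥0∞) (L : List (Set α))
    (h : ∀ s ∈ L, μ s ≤ x) : μ {a | ∃ s ∈ L, a ∈ s} ≤ L.length * x := by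
  induction L with
  | nil => simp
  | cons s L ih =>
    have e : {a | ∃ s' ∈ s :: L, a ∈ s'} = s ∪ {a | ∃ s' ∈ L, a ∈ s'} := by
      ext a
      simp
    rw [e]
    refine (measure_union_le _ _).trans ?_
    have h1 := h s (by simp)
    have h2 := ih fun s' hs' => h s' (by simp [hs'])
    refine (add_le_add h1 h2).trans (le_of_eq ?_)
    rw [List.length_cons]
    push_cast
    ring

theorem arith (p m : ℝ≥0∞) (hp : p ≠ ∞) (h : p ≤ m + (18 : ℕ) * (p / 100)) : p / 2 ≤ m := by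
  by_cases hm : m = ∞
  · rw [hm]; exact le_top
  have h1 : p / 100 ≠ ∞ := ENNReal.div_ne_top hp (by norm_num)
  have h2 := ENNReal.toReal_mono (by
    refine ENNReal.add_ne_top.mpr ⟨hm, ENNReal.mul_ne_top (by simp) h1⟩) h
  rw [ENNReal.toReal_add hm (ENNReal.mul_ne_top (by simp) h1), ENNReal.toReal_mul,
    ENNReal.toReal_div] at h2
  have h3 : (p / 2).toReal ≤ m.toReal := by
    rw [ENNReal.toReal_div]
    have h4 : 0 ≤ p.toReal := ENNReal.toReal_nonneg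
    norm_num at h2 ⊢
    linarith
  exact (ENNReal.toReal_le_toReal (ENNReal.div_ne_top hp (by norm_num)) hm).mp h3

theorem disj_slab {A B : Set Site} (s t s' t' : ℤ) (hA : ∀ x ∈ A, s < x.1 ∧ x.1 ≤ t)
    (hB : ∀ x ∈ B, s' < x.1 ∧ x.1 ≤ t') (h : t ≤ s' ∨ t' ≤ s) : Disjoint A B := by
  rw [Set.disjoint_left]
  intro x h1 h2
  have h3 := hA x h1
  have h4 := hB x h2
  omega

theorem pf_IN2 (h_FIM : T_FIM) (h_DEP : T_DEP) (h_DER : T_DER) (h_PH2 : T_PH2) : T_IN2 := by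
  classical
  intro D out out' o e C r ρ hD hE hFC hRF hFC' hRF' hLO hρ hHW hsm
  set P : ℝ≥0∞ := pH D with hP
  set μ := PN D.q ρ with hμ
  have hn := hD.n1
  let ou : Bool → Env := fun b => if b then out else out'
  have FCb : ∀ b, FC D (ou b) := by intro b; cases b <;> simpa [ou]
  have RFb : ∀ b, RF D (ou b) o e := by intro b; cases b <;> simpa [ou]
  -- finiteness and dependence
  have finW : ∀ s t, (Wd D s t).Finite := fun s t => (h_DEP D s t 0 0 0).2.2.2.2.2.2.1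
  have finN : ∀ s t, (Nr D s t).Finite := fun s t => (h_DEP D s t 0 0 0).2.2.2.2.2.2.2
  have dUB : ∀ s t c, DepOn (Wd D s t) (fun ω => UB D ω s t c) :=
    fun s t c => (h_DEP D s t c 0 0).1
  have dND : ∀ s t c, DepOn (Wd D s t) (fun ω => ND D ω s t c) :=
    fun s t c => (h_DEP D s t c 0 0).2.1
  have dCU := (h_DEP D 0 0 0 0 0).2.2.1
  have dHW : ∀ s t c, DepOn (Nr D s t) (fun ω => HWs D ω s t c) :=
    fun s t c => (h_DEP D s t c 0 0).2.2.2.2.1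
  have dF : DepOn (Nr D (-(3 * D.n)) (-(2 * D.n)) ∪ Nr D (2 * D.n) (3 * D.n))
      (fun ω => HWs D ω (-(3 * D.n)) (-(2 * D.n)) 1 ∧ HWs D ω (2 * D.n) (3 * D.n) 1) :=
    dep_and (dHW _ _ 1) (dHW _ _ 1)
  have finF := (finN (-(3 * D.n)) (-(2 * D.n))).union (finN (2 * D.n) (3 * D.n))
  have finSW : (slW D).Finite := ((finW _ _).union (finW _ _)).union (finW _ _)
  have finSN : (slN D).Finite := ((finN _ _).union (finN _ _)).union (finN _ _)
  -- probabilities of the highways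
  have p1 : PE D.q {ω | HWs D ω (-(3 * D.n)) (-(2 * D.n)) 1} = P := rfl
  have p2 : PE D.q {ω | HWs D ω (2 * D.n) (3 * D.n) 1} = P := h_PH2 D hD.ne
  have m1 := h_FIM _ _ (finN (-(3 * D.n)) (-(2 * D.n))) (dHW _ _ 1)
  have m2 := h_FIM _ _ (finN (2 * D.n) (3 * D.n)) (dHW _ _ 1)
  have djN : Disjoint (Nr D (-(3 * D.n)) (-(2 * D.n))) (Nr D (2 * D.n) (3 * D.n)) :=
    disj_slab _ _ _ _ (fun x hx => ⟨hx.1, hx.2.1⟩) (fun x hx => ⟨hx.1, hx.2.1⟩)
      (Or.inl (by omega))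
  have pF : PE D.q {ω | HWs D ω (-(3 * D.n)) (-(2 * D.n)) 1 ∧ HWs D ω (2 * D.n) (3 * D.n) 1} =
      P * P := by
    rw [show (P * P = PE D.q {ω | HWs D ω (-(3 * D.n)) (-(2 * D.n)) 1} *
      PE D.q {ω | HWs D ω (2 * D.n) (3 * D.n) 1}) by rw [p1, p2]]
    exact measure_inter_of_depOn D.q djN m1 m2 (dHW _ _ 1) (dHW _ _ 1)
  have mF := h_FIM _ _ finF dF
  have hPle : P ≤ 1 := by rw [hP]; exact prob_le_one
  have hPP : P ^ 2 ≠ ∞ := ENNReal.pow_ne_top (ne_top_of_le_ne_top ENNReal.one_ne_top hPle)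
  -- the event of the two highways
  have hF : μ {E | HWs D (pr true E) (-(3 * D.n)) (-(2 * D.n)) 1 ∧
      HWs D (pr true E) (2 * D.n) (3 * D.n) 1} = P ^ 2 := by
    rw [hμ, ind D.q ρ djN m1 m2 (dHW _ _ 1) (dHW _ _ 1) true true, p1, p2, sq]
  -- the bad events
  have bA : ∀ (b : Bool) (Q : Env → Prop) (s t s' t' : ℤ), DepOn (Wd D s t) Q →
      PE D.q {ω | HWs D ω s' t' 1} = P → (t ≤ s' ∨ t' ≤ s) →
      Pin D (ou b) (fun ω => ¬ Q ω) ≤ P / 100 →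
      μ {E | ¬ Q (splice (Bx D) (pr b E) (ou b)) ∧ HWs D (pr true E) s' t' 1} ≤ P ^ 2 / 100 := by
    intro b Q s t s' t' hQ hP' hst hle
    have h1 := dep_not (dep_spl hQ D (ou b))
    rw [hμ, ind D.q ρ (disj_slab s t s' t' (fun x hx => ⟨hx.1, hx.2.1⟩)
      (fun x hx => ⟨hx.1, hx.2.1⟩) hst) (h_FIM _ _ (finW s t) h1)
      (h_FIM _ _ (finN s' t') (dHW s' t' 1)) h1 (dHW s' t' 1) b true, hP']
    have h2 : P ^ 2 / 100 = P / 100 * P := by
      rw [div_eq_mul_inv, div_eq_mul_inv]; ring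
    rw [h2]
    exact mul_le_mul_left hle P
  have bB : ∀ (b : Bool) (Q : Env → Prop) (A : Set Site), A.Finite → DepOn A Q →
      Disjoint A (Nr D (-(3 * D.n)) (-(2 * D.n)) ∪ Nr D (2 * D.n) (3 * D.n)) →
      PE D.q {ω | ¬ Q ω} ≤ 1 / 100 →
      μ {E | ¬ Q (pr b E) ∧ (HWs D (pr true E) (-(3 * D.n)) (-(2 * D.n)) 1 ∧
        HWs D (pr true E) (2 * D.n) (3 * D.n) 1)} ≤ P ^ 2 / 100 := by
    intro b Q A hA hQ hdj hle
    have h1 := dep_not hQ
    rw [hμ, ind D.q ρ hdj (h_FIM _ _ hA h1) mF h1 dF b true, pF]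
    have h2 : P ^ 2 / 100 = 1 / 100 * (P * P) := by
      rw [div_eq_mul_inv, div_eq_mul_inv]; ring
    rw [h2]
    exact mul_le_mul_left hle _
  have bC : ∀ (b : Bool) (Q : Env → Prop) (A : Set Site), A.Finite → DepOn A Q →
      Pin D (ou b) (fun ω => ¬ Q ω) ≤ P ^ 2 / 100 →
      μ {E | ¬ Q (splice (Bx D) (pr b E) (ou b))} ≤ P ^ 2 / 100 := by
    intro b Q A hA hQ hle
    have h1 := dep_not (dep_spl hQ D (ou b))
    refine le_trans (le_of_eq ?_) hle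
    exact (mp_pr D.q ρ b).measure_preimage (h_FIM _ _ hA h1).nullMeasurableSet
  have djW : Disjoint (slW D) (Nr D (-(3 * D.n)) (-(2 * D.n)) ∪ Nr D (2 * D.n) (3 * D.n)) := by
    rw [Set.disjoint_left]
    rintro x hx hx'
    have h1 : (-(4 * D.n) < x.1 ∧ x.1 ≤ -(3 * D.n)) ∨ (-(2 * D.n) < x.1 ∧ x.1 ≤ 2 * D.n) ∨
        (3 * D.n < x.1 ∧ x.1 ≤ 4 * D.n) := by
      rcases hx with (hx | hx) | hx
      · exact Or.inl ⟨hx.1, hx.2.1⟩
      · exact Or.inr (Or.inl ⟨hx.1, hx.2.1⟩)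
      · exact Or.inr (Or.inr ⟨hx.1, hx.2.1⟩)
    have h2 : (-(3 * D.n) < x.1 ∧ x.1 ≤ -(2 * D.n)) ∨ (2 * D.n < x.1 ∧ x.1 ≤ 3 * D.n) := by
      rcases hx' with hx | hx
      · exact Or.inl ⟨hx.1, hx.2.1⟩
      · exact Or.inr ⟨hx.1, hx.2.1⟩
    omega
  have djN' : Disjoint (slN D) (Nr D (-(3 * D.n)) (-(2 * D.n)) ∪ Nr D (2 * D.n) (3 * D.n)) := by
    rw [Set.disjoint_left]
    rintro x hx hx'
    have h1 : (-(4 * D.n) < x.1 ∧ x.1 ≤ -(3 * D.n)) ∨ (-(2 * D.n) < x.1 ∧ x.1 ≤ 2 * D.n) ∨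
        (3 * D.n < x.1 ∧ x.1 ≤ 4 * D.n) := by
      rcases hx with (hx | hx) | hx
      · exact Or.inl ⟨hx.1, hx.2.1⟩
      · exact Or.inr (Or.inl ⟨hx.1, hx.2.1⟩)
      · exact Or.inr (Or.inr ⟨hx.1, hx.2.1⟩)
    have h2 : (-(3 * D.n) < x.1 ∧ x.1 ≤ -(2 * D.n)) ∨ (2 * D.n < x.1 ∧ x.1 ≤ 3 * D.n) := by
      rcases hx' with hx | hx
      · exact Or.inl ⟨hx.1, hx.2.1⟩
      · exact Or.inr ⟨hx.1, hx.2.1⟩
    omega
  have hreach : Reach o e := hE.re
  have ho : o.1 ≤ -(4 * D.n) := by have := hE.o1; omega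
  have he : 4 * D.n ≤ e.1 := by have := hE.e1; omega
  let B1 : Bool → Set PEnv := fun b => {E | ¬ UB D (splice (Bx D) (pr b E) (ou b)) (-(3 * D.n))
    (-(2 * D.n)) (1001 / 1000) ∧ HWs D (pr true E) (2 * D.n) (3 * D.n) 1}
  let B2 : Bool → Set PEnv := fun b => {E | ¬ ND D (splice (Bx D) (pr b E) (ou b)) (-(3 * D.n))
    (-(2 * D.n)) (974 / 1000) ∧ HWs D (pr true E) (2 * D.n) (3 * D.n) 1}
  let B3 : Bool → Set PEnv := fun b => {E | ¬ UB D (splice (Bx D) (pr b E) (ou b)) (2 * D.n)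
    (3 * D.n) (1001 / 1000) ∧ HWs D (pr true E) (-(3 * D.n)) (-(2 * D.n)) 1}
  let B4 : Bool → Set PEnv := fun b => {E | ¬ ND D (splice (Bx D) (pr b E) (ou b)) (2 * D.n)
    (3 * D.n) (974 / 1000) ∧ HWs D (pr true E) (-(3 * D.n)) (-(2 * D.n)) 1}
  let B5 : Bool → Set PEnv := fun b => {E | ¬ Sm D (splice (Bx D) (pr b E) (ou b)) ∧
    (HWs D (pr true E) (-(3 * D.n)) (-(2 * D.n)) 1 ∧ HWs D (pr true E) (2 * D.n) (3 * D.n) 1)}
  let B6 : Bool → Set PEnv := fun b => {E | ¬ LO D (pr b E) ∧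
    (HWs D (pr true E) (-(3 * D.n)) (-(2 * D.n)) 1 ∧ HWs D (pr true E) (2 * D.n) (3 * D.n) 1)}
  let B7 : Bool → Set PEnv := fun b => {E | ¬ CU D (splice (Bx D) (pr b E) (ou b))}
  let B8 : Bool → Set PEnv := fun b => {E | ¬ RR D (splice (Bx D) (pr b E) (ou b)) o e}
  let H1 : Set PEnv := {E | HWs D (eA E) (-(3 * D.n)) (-(2 * D.n)) 1 ∧
    ¬ HWs D (eB E) (-(3 * D.n)) (-(2 * D.n)) (999 / 1000)}
  let H2 : Set PEnv := {E | HWs D (eA E) (2 * D.n) (3 * D.n) 1 ∧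
    ¬ HWs D (eB E) (2 * D.n) (3 * D.n) (999 / 1000)}
  have hB1 : ∀ b, μ (B1 b) ≤ P ^ 2 / 100 := fun b =>
    bA b (fun ω => UB D ω (-(3 * D.n)) (-(2 * D.n)) (1001 / 1000)) _ _ _ _ (dUB _ _ _) p2
      (Or.inl (by omega)) (FCb b).u1
  have hB2 : ∀ b, μ (B2 b) ≤ P ^ 2 / 100 := fun b =>
    bA b (fun ω => ND D ω (-(3 * D.n)) (-(2 * D.n)) (974 / 1000)) _ _ _ _ (dND _ _ _) p2
      (Or.inl (by omega)) (FCb b).d1
  have hB3 : ∀ b, μ (B3 b) ≤ P ^ 2 / 100 := fun b =>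
    bA b (fun ω => UB D ω (2 * D.n) (3 * D.n) (1001 / 1000)) _ _ _ _ (dUB _ _ _) p1
      (Or.inr (by omega)) (FCb b).u2
  have hB4 : ∀ b, μ (B4 b) ≤ P ^ 2 / 100 := fun b =>
    bA b (fun ω => ND D ω (2 * D.n) (3 * D.n) (974 / 1000)) _ _ _ _ (dND _ _ _) p1
      (Or.inr (by omega)) (FCb b).d2
  have hB5 : ∀ b, μ (B5 b) ≤ P ^ 2 / 100 := fun b =>
    bB b (fun ω => Sm D (splice (Bx D) ω (ou b))) (slW D) finSW
      (dep_spl (dep_Sm h_DEP D) D (ou b)) djW (FCb b).sm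
  have hB6 : ∀ b, μ (B6 b) ≤ P ^ 2 / 100 := fun b =>
    bB b (fun ω => LO D ω) (slN D) finSN (dep_LO h_DEP D) djN' hLO
  have hB7 : ∀ b, μ (B7 b) ≤ P ^ 2 / 100 := fun b =>
    bC b (fun ω => CU D ω) _ (finW _ _) dCU (FCb b).cu
  have hB8 : ∀ b, μ (B8 b) ≤ P ^ 2 / 100 := fun b =>
    bC b (fun ω => RR D ω o e) _ (dom_finite o e) (h_DER D o e hreach ho he) (RFb b)
  have hH1 : μ H1 ≤ P ^ 2 / 100 := (hHW _ _ (by omega) (by omega)).trans hsm
  have hH2 : μ H2 ≤ P ^ 2 / 100 := (hHW _ _ (by omega) (by omega)).trans hsm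
  let L : List (Set PEnv) := [B1 true, B2 true, B3 true, B4 true, B5 true, B6 true, B7 true,
    B8 true, B1 false, B2 false, B3 false, B4 false, B5 false, B6 false, B7 false, B8 false,
    H1, H2]
  have hL : ∀ s ∈ L, μ s ≤ P ^ 2 / 100 := by
    intro s hs
    simp only [L, List.mem_cons, List.not_mem_nil, or_false] at hs
    rcases hs with h | h | h | h | h | h | h | h | h | h | h | h | h | h | h | h | h | h <;>
      rw [h]
    · exact hB1 _
    · exact hB2 _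
    · exact hB3 _
    · exact hB4 _
    · exact hB5 _
    · exact hB6 _
    · exact hB7 _
    · exact hB8 _
    · exact hB1 _
    · exact hB2 _
    · exact hB3 _
    · exact hB4 _
    · exact hB5 _
    · exact hB6 _
    · exact hB7 _
    · exact hB8 _
    · exact hH1
    · exact hH2
  set Good : Set PEnv := {E |
    (Ev D (splice (Bx D) (eA E) out) ∧ RR D (splice (Bx D) (eA E) out) o e) ∧
    (Ev D (splice (Bx D) (eB E) out') ∧ RR D (splice (Bx D) (eB E) out') o e)} with hGood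
  have hsub : {E | HWs D (pr true E) (-(3 * D.n)) (-(2 * D.n)) 1 ∧
      HWs D (pr true E) (2 * D.n) (3 * D.n) 1} ⊆ Good ∪ {E | ∃ s ∈ L, E ∈ s} := by
    intro E hEF
    by_cases hex : ∃ s ∈ L, E ∈ s
    · exact Or.inr hex
    · left
      have hno : ∀ s ∈ L, E ∉ s := fun s hs hE' => hex ⟨s, hs, hE'⟩
      obtain ⟨hf1, hf2⟩ := hEF
      have key : ∀ b, HWs D (pr b E) (-(3 * D.n)) (-(2 * D.n)) (999 / 1000) →
          HWs D (pr b E) (2 * D.n) (3 * D.n) (999 / 1000) → E ∉ B1 b → E ∉ B2 b → E ∉ B3 b →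
          E ∉ B4 b → E ∉ B5 b → E ∉ B6 b → E ∉ B7 b → E ∉ B8 b →
          Ev D (splice (Bx D) (pr b E) (ou b)) ∧ RR D (splice (Bx D) (pr b E) (ou b)) o e := by
        intro b g1 g2 n1 n2 n3 n4 n5 n6 n7 n8
        refine ⟨⟨?_, ?_, ?_, ?_, ?_, ?_, ?_, ?_, ?_⟩, ?_⟩
        · by_contra hc; exact n1 ⟨hc, hf2⟩
        · by_contra hc; exact n3 ⟨hc, hf1⟩
        · by_contra hc; exact n5 ⟨hc, hf1, hf2⟩
        · by_contra hc; exact n2 ⟨hc, hf2⟩
        · by_contra hc; exact n4 ⟨hc, hf1⟩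
        · by_contra hc; exact n7 hc
        · exact (eq_spl hD (by omega) (by omega) (dHW _ _ _) _ _).mpr g1
        · exact (eq_spl hD (by omega) (by omega) (dHW _ _ _) _ _).mpr g2
        · rw [LO_spl h_DEP hD]
          by_contra hc
          exact n6 ⟨hc, hf1, hf2⟩
        · by_contra hc; exact n8 hc
      have gA := key true (hws_mono hD hf1) (hws_mono hD hf2) (hno _ (by simp [L]))
        (hno _ (by simp [L])) (hno _ (by simp [L])) (hno _ (by simp [L])) (hno _ (by simp [L]))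
        (hno _ (by simp [L])) (hno _ (by simp [L])) (hno _ (by simp [L]))
      have q1 : HWs D (pr false E) (-(3 * D.n)) (-(2 * D.n)) (999 / 1000) := by
        by_contra hc
        exact hno H1 (by simp [L]) ⟨hf1, hc⟩
      have q2 : HWs D (pr false E) (2 * D.n) (3 * D.n) (999 / 1000) := by
        by_contra hc
        exact hno H2 (by simp [L]) ⟨hf2, hc⟩
      have gB := key false q1 q2 (hno _ (by simp [L]))
        (hno _ (by simp [L])) (hno _ (by simp [L])) (hno _ (by simp [L])) (hno _ (by simp [L]))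
        (hno _ (by simp [L])) (hno _ (by simp [L])) (hno _ (by simp [L]))
      exact ⟨gA, gB⟩
  have hfin : P ^ 2 ≤ μ Good + (18 : ℕ) * (P ^ 2 / 100) := by
    rw [← hF]
    refine (measure_mono hsub).trans ((measure_union_le _ _).trans ?_)
    rw [hF]
    exact add_le_add le_rfl (list_bd μ _ L hL)
  exact arith _ _ hPP hfin

end Pool.Agent.H77.INS.IN2
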