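import Pool.Agent.H77.INS.IN2

/-!
# MP_57ddd5_pr: module OVL
-/

set_option autoImplicit false

open MeasureTheory ProbabilityTheory
open scoped ENNReal

namespace Pool.Agent.H77.INS.OVL

open Pool.Agent.H95.INS Pool.Agent.H99.NS Pool.Agent.H22.LPP Pool.Agent.H77.INS
open Pool.Agent.H97.NF (PEnv eA eB PN)

theorem splice_self (S : Set Site) (ω : Env) : splice S ω ω = ω := by
  classical
  funext x
  unfold splice
  split_ifs <;> rfl

theorem lgeo_lam (h_LAM : B_LAM) (ω : Env) (o e : Site) (h : Reach o e) :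
    LGeo ω o e (Lam ω o e) := h_LAM ω o e h

theorem le_pr (q : ℝ) (ρ : Site → ℝ) (b : Bool) (S : Set Env) :
    PN q ρ (pr b ⁻¹' S) ≤ PE q S := by
  have h1 := Measure.le_map_apply (μ := PN q ρ) (meas_pr b).aemeasurable S
  rwa [(mp_pr q ρ b).map_eq] at h1

/-- the deterministic part for one environment -/
theorem one_env (h_DET : T_DET) (h_GIN : T_GIN) (h_GST : T_GST) (h_LAM : B_LAM) (D : Dat)
    (hD : D.Ok) (A out : Env) (o e : Site) (hE : Ends D o e) (hG : Good D out o e)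
    (hEv : Ev D (splice (Bx D) A out)) (hRR : RR D (splice (Bx D) A out) o e) (hCA : CA D A)
    (hT : mu D.q * (8 * D.n) - D.Y * D.f ≤ T A (-(4 * D.n), 0) (4 * D.n, 0)) :
    ∀ j, -(2 * D.n) ≤ j → j ≤ 2 * D.n →
      |Lam (splice (Bx D) A out) o e j| < D.A * D.w ∧
      Lam (splice (Bx D) A out) o e j = Lam A (-(4 * D.n), 0) (4 * D.n, 0) j := by
  intro j hj1 hj2
  have hn := hD.n1
  obtain ⟨-, -, ω₀, γ, hO1, hO2, hO3⟩ := hG
  have hagree : Agree D (splice (Bx D) A out) (splice (Bx D) ω₀ out) := by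
    intro x hx
    rw [splice_of_not_mem _ _ hx, splice_of_not_mem _ _ hx]
  have hins := h_DET D _ _ o e hD hagree hE hEv hRR hO1 hO2 γ hO3
  have hr : Reach (-(4 * D.n), 0) (4 * D.n, 0) := by
    refine ⟨?_, ?_⟩
    · simp only [sub_self, abs_zero]
      omega
    · exact ⟨4 * D.n, by simp⟩
  obtain ⟨h1, h2⟩ := hins.ga _ (lgeo_lam h_LAM (splice (Bx D) A out) _ _ hr)
  have h3 := h2 _ (lgeo_lam h_LAM (splice (Bx D) A out) o e hE.re) j hj1 hj2
  have h4 := h_GST D A hD hCA hT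
  have h5 := h_GIN D A out A (Lam (splice (Bx D) A out) (-(4 * D.n), 0) (4 * D.n, 0))
    (Lam A (-(4 * D.n), 0) (4 * D.n, 0)) (lgeo_lam h_LAM _ _ _ hr)
    (by rw [splice_self]; exact lgeo_lam h_LAM _ _ _ hr) h1 h4 j (by omega) (by omega)
  rw [h3]
  exact ⟨h1 j (by omega) (by omega), h5⟩

theorem arith2 (p m : ℝ≥0∞) (hp : p ≠ ∞) (hm : m ≠ ∞) (h : p / 2 ≤ m + (4 : ℕ) * (p / 100)) :
    46 / 100 * p.toReal ≤ m.toReal := by
  have h1 : p / 100 ≠ ∞ := ENNReal.div_ne_top hp (by norm_num)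
  have h2 := ENNReal.toReal_mono (by
    refine ENNReal.add_ne_top.mpr ⟨hm, ENNReal.mul_ne_top (by simp) h1⟩) h
  rw [ENNReal.toReal_add hm (ENNReal.mul_ne_top (by simp) h1), ENNReal.toReal_mul,
    ENNReal.toReal_div, ENNReal.toReal_div] at h2
  have h4 : 0 ≤ p.toReal := ENNReal.toReal_nonneg
  norm_num at h2 ⊢
  linarith

/-- the probabilistic part -/
theorem prob_part (h_DET : T_DET) (h_GIN : T_GIN) (h_GST : T_GST) (h_LAM : B_LAM) (D : Dat)
    (hD : D.Ok) (ρ : Site → ℝ) (out out' : Env) (o e : Site) (hE : Ends D o e)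
    (hG : Good D out o e) (hG' : Good D out' o e)
    (hCA : PE D.q {ω | ¬ CA D ω} ≤ pH D ^ 2 / 100)
    (hT : PE D.q {ω | T ω (-(4 * D.n), 0) (4 * D.n, 0) < mu D.q * (8 * D.n) - D.Y * D.f} ≤
      pH D ^ 2 / 100)
    (hZ : pH D ^ 2 / 2 ≤ PN D.q ρ {E |
      (Ev D (splice (Bx D) (eA E) out) ∧ RR D (splice (Bx D) (eA E) out) o e) ∧
      (Ev D (splice (Bx D) (eB E) out') ∧ RR D (splice (Bx D) (eB E) out') o e)}) :
    ((4 * D.n : ℤ) : ℝ) * (46 / 100 * (pH D).toReal ^ 2) ≤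
      (∑ j ∈ Finset.Ioc (-(2 * D.n)) (2 * D.n), (PN D.q ρ).real {E |
        |Lam (splice (Bx D) (eA E) out) o e j| < D.A * D.w ∧
        Lam (splice (Bx D) (eA E) out) o e j = Lam (splice (Bx D) (eB E) out') o e j}) +
      ∑ j ∈ Finset.Ioc (-(2 * D.n)) (2 * D.n), (PN D.q ρ).real {E |
        Lam (eA E) (-(4 * D.n), 0) (4 * D.n, 0) j ≠
          Lam (eB E) (-(4 * D.n), 0) (4 * D.n, 0) j} := by
  classical
  have hn := hD.n1
  set μ := PN D.q ρ with hμ
  set Z : Set PEnv := {E |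
      (Ev D (splice (Bx D) (eA E) out) ∧ RR D (splice (Bx D) (eA E) out) o e) ∧
      (Ev D (splice (Bx D) (eB E) out') ∧ RR D (splice (Bx D) (eB E) out') o e)} with hZdef
  set G : Set PEnv := {E | E ∈ Z ∧ (CA D (eA E) ∧
    mu D.q * (8 * D.n) - D.Y * D.f ≤ T (eA E) (-(4 * D.n), 0) (4 * D.n, 0)) ∧
    (CA D (eB E) ∧ mu D.q * (8 * D.n) - D.Y * D.f ≤ T (eB E) (-(4 * D.n), 0) (4 * D.n, 0))}
    with hGdef
  let C1 : Bool → Set PEnv := fun b => pr b ⁻¹' {ω | ¬ CA D ω}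
  let C2 : Bool → Set PEnv := fun b => pr b ⁻¹' {ω | T ω (-(4 * D.n), 0) (4 * D.n, 0) <
    mu D.q * (8 * D.n) - D.Y * D.f}
  let L : List (Set PEnv) := [C1 true, C1 false, C2 true, C2 false]
  have hL : ∀ s ∈ L, μ s ≤ pH D ^ 2 / 100 := by
    intro s hs
    simp only [L, List.mem_cons, List.not_mem_nil, or_false] at hs
    rcases hs with h | h | h | h <;> rw [h]
    · exact (le_pr D.q ρ true _).trans hCA
    · exact (le_pr D.q ρ false _).trans hCA
    · exact (le_pr D.q ρ true _).trans hT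
    · exact (le_pr D.q ρ false _).trans hT
  have hsub : Z ⊆ G ∪ {E | ∃ s ∈ L, E ∈ s} := by
    intro E hEZ
    by_cases hex : ∃ s ∈ L, E ∈ s
    · exact Or.inr hex
    · left
      have hno : ∀ s ∈ L, E ∉ s := fun s hs hE' => hex ⟨s, hs, hE'⟩
      have n1 := hno (C1 true) (by simp [L])
      have n2 := hno (C1 false) (by simp [L])
      have n3 := hno (C2 true) (by simp [L])
      have n4 := hno (C2 false) (by simp [L])
      refine ⟨hEZ, ⟨?_, ?_⟩, ?_, ?_⟩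
      · by_contra hc; exact n1 hc
      · by_contra hc; exact n3 (not_le.mp hc)
      · by_contra hc; exact n2 hc
      · by_contra hc; exact n4 (not_le.mp hc)
  have hPle : pH D ≤ 1 := prob_le_one
  have hPP : pH D ^ 2 ≠ ∞ := ENNReal.pow_ne_top (ne_top_of_le_ne_top ENNReal.one_ne_top hPle)
  have hGm : μ G ≠ ∞ := measure_ne_top μ G
  have h1 : pH D ^ 2 / 2 ≤ μ G + (4 : ℕ) * (pH D ^ 2 / 100) := by
    refine hZ.trans ((measure_mono hsub).trans ((measure_union_le _ _).trans ?_))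
    exact add_le_add le_rfl (IN2.list_bd μ _ L hL)
  have h2 := arith2 _ _ hPP hGm h1
  rw [ENNReal.toReal_pow] at h2
  have h3 : ∀ j ∈ Finset.Ioc (-(2 * D.n)) (2 * D.n), 46 / 100 * (pH D).toReal ^ 2 ≤
      μ.real {E | |Lam (splice (Bx D) (eA E) out) o e j| < D.A * D.w ∧
        Lam (splice (Bx D) (eA E) out) o e j = Lam (splice (Bx D) (eB E) out') o e j} +
      μ.real {E | Lam (eA E) (-(4 * D.n), 0) (4 * D.n, 0) j ≠
          Lam (eB E) (-(4 * D.n), 0) (4 * D.n, 0) j} := by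
    intro j hj
    rw [Finset.mem_Ioc] at hj
    refine h2.trans ?_
    refine le_trans (measureReal_mono (μ := μ) (s₂ := {E |
        |Lam (splice (Bx D) (eA E) out) o e j| < D.A * D.w ∧
        Lam (splice (Bx D) (eA E) out) o e j = Lam (splice (Bx D) (eB E) out') o e j} ∪
      {E | Lam (eA E) (-(4 * D.n), 0) (4 * D.n, 0) j ≠
          Lam (eB E) (-(4 * D.n), 0) (4 * D.n, 0) j}) ?_) (measureReal_union_le _ _)
    rintro E ⟨hEZ, ⟨a1, a2⟩, b1, b2⟩
    obtain ⟨⟨z1, z2⟩, z3, z4⟩ := hEZ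
    have rA := one_env h_DET h_GIN h_GST h_LAM D hD (eA E) out o e hE hG z1 z2 a1 a2 j
      (by omega) hj.2
    have rB := one_env h_DET h_GIN h_GST h_LAM D hD (eB E) out' o e hE hG' z3 z4 b1 b2 j
      (by omega) hj.2
    by_cases hne : Lam (eA E) (-(4 * D.n), 0) (4 * D.n, 0) j =
        Lam (eB E) (-(4 * D.n), 0) (4 * D.n, 0) j
    · left
      refine ⟨rA.1, ?_⟩
      rw [rA.2, rB.2, hne]
    · right
      exact hne
  have h4 := Finset.sum_le_sum h3
  rw [Finset.sum_add_distrib, Finset.sum_const, Int.card_Ioc, nsmul_eq_mul] at h4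
  refine le_trans (le_of_eq ?_) h4
  congr 1
  have h5 : (2 * D.n - -(2 * D.n)).toNat = (4 * D.n).toNat := by congr 1; ring
  rw [h5]
  have h6 : (((4 * D.n).toNat : ℤ) : ℝ) = ((4 * D.n : ℤ) : ℝ) := by
    rw [Int.toNat_of_nonneg (by omega)]
  rw [← h6]
  push_cast
  rfl

theorem pf_OVL (h_DET : T_DET) (h_GIN : T_GIN) (h_PRB : T_PRB) (h_IN1 : T_IN1) (h_PAL : T_PAL)
    (h_ES : T_ES) (h_IN2 : T_IN2) (h_GST : T_GST) (h_LAM : B_LAM) : T_OVL := by
  classical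
  intro q cs hq0 hq1 hcs hA hC hB hS hL hST K B ε' hK hB0 hε'
  obtain ⟨A, H, Y, p₁, k₁, hA40, hp₁, hk₁, hH1, hPRB⟩ :=
    h_PRB q cs hq0 hq1 hcs hA hC hB hS hL K B ε' hK hB0 hε'
  obtain ⟨C, hC0, hES⟩ := h_ES q hq0 hq1
  set p2 : ℝ≥0∞ := min p₁ 1 with hp2
  have hp2pos : 0 < p2 := lt_min hp₁ one_pos
  have hp2top : p2 ≠ ∞ := ne_top_of_le_ne_top ENNReal.one_ne_top (min_le_right _ _)
  set p : ℝ := p2.toReal with hp
  have hp0 : 0 < p := ENNReal.toReal_pos hp2pos.ne' hp2top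
  obtain ⟨κ2, hκ2, hκ2', k₂, hk₂, hSTk⟩ := hST (p ^ 2 / 100) (by positivity)
  set κ1 : ℝ := 8 * H ^ 2 * p ^ 2 / (100 * C) with hκ1
  have hH0 : 0 < H := by linarith
  have hκ1pos : 0 < κ1 := by positivity
  refine ⟨A, H, Y, min (min κ1 κ2) 1, p ^ 2 / 5, p2 ^ 2 / 2, max k₁ k₂, hA40, ?_,
    hk₁.trans (le_max_left _ _), lt_min (lt_min hκ1pos hκ2) one_pos, min_le_right _ _,
    by positivity, ?_⟩
  · exact ENNReal.div_pos (pow_ne_zero 2 hp2pos.ne') (by norm_num)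
  intro k X hk hX1 hX2 D
  obtain ⟨hOk, hpH, hFC, hLO, hCA, hT⟩ := hPRB k X ((le_max_left _ _).trans hk) hX1 hX2
  change D.Ok at hOk
  have hp2H : p2 ≤ pH D := (min_le_left _ _).trans hpH
  have hsq : p2 ^ 2 / 2 ≤ pH D ^ 2 / 2 := ENNReal.div_le_div_right (pow_le_pow_left' hp2H 2) 2
  have hk1 : 1 ≤ k := hk₁.trans ((le_max_left _ _).trans hk)
  refine ⟨hOk, hFC, ?_, ?_⟩
  · intro out o e hE hG
    exact ⟨hsq.trans (h_IN1 D out o e hOk hE hG.1 hG.2.1 hLO),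
      hsq.trans (h_PAL D out o e hOk hE hG hLO)⟩
  · intro out out' o e r hE hG hG' hr0 hr
    have hPle : pH D ≤ 1 := prob_le_one
    have hPtop : pH D ≠ ∞ := ne_top_of_le_ne_top ENNReal.one_ne_top hPle
    have hpP : p ≤ (pH D).toReal := ENNReal.toReal_mono hPtop hp2H
    have hN0 : (0 : ℝ) < 64 ^ (k - 1) := by positivity
    have h64 : (64 : ℝ) ^ k = 64 * 64 ^ (k - 1) := by
      conv_lhs => rw [show k = (k - 1) + 1 by omega]
      rw [pow_succ]; ring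
    have hDn : ((D.n : ℤ) : ℝ) = 8 * 64 ^ (k - 1) := by
      change (((8 * 64 ^ (k - 1) : ℤ)) : ℝ) = _
      push_cast
      ring
    have h4k : (0 : ℝ) < (1 / 4) ^ k := by positivity
    have hr1 : r ≤ κ1 * (1 / 4) ^ k := hr.trans
      (mul_le_mul_of_nonneg_right ((min_le_left _ _).trans (min_le_left _ _)) h4k.le)
    have hr2 : r ≤ κ2 * (1 / 4) ^ k := hr.trans
      (mul_le_mul_of_nonneg_right ((min_le_left _ _).trans (min_le_right _ _)) h4k.le)
    -- the noise bound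
    have hsmall : ENNReal.ofReal (C * r * D.n / (D.H * D.f) ^ 2) ≤ pH D ^ 2 / 100 := by
      have h1 : C * r * D.n / (D.H * D.f) ^ 2 ≤ p ^ 2 / 100 := by
        have hf : D.f = 4 ^ k := rfl
        have hHD : D.H = H := rfl
        rw [hf, hHD, hDn, div_le_iff₀ (by positivity)]
        have e1 : ((4 : ℝ) ^ k) * (1 / 4) ^ k = 1 := by
          rw [← mul_pow]; norm_num
        have e2 : (64 : ℝ) ^ k = 4 ^ k * (4 ^ k * 4 ^ k) := by
          rw [← mul_pow, ← mul_pow]; norm_num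
        have h2 : C * r * (8 * 64 ^ (k - 1)) ≤ C * (κ1 * (1 / 4) ^ k) * (8 * 64 ^ (k - 1)) := by
          have := mul_le_mul_of_nonneg_left hr1 hC0.le
          exact mul_le_mul_of_nonneg_right this (by positivity)
        refine h2.trans (le_of_eq ?_)
        have h3 : (8 : ℝ) * 64 ^ (k - 1) = 4 ^ k * (4 ^ k * 4 ^ k) / 8 := by
          rw [← e2, h64]; ring
        rw [h3, hκ1]
        field_simp
        have e3 : (4 : ℝ) ^ k * (4 ^ k * 4 ^ k) * (1 / 4) ^ k = 4 ^ k * 4 ^ k := by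
          calc (4 : ℝ) ^ k * (4 ^ k * 4 ^ k) * (1 / 4) ^ k
              = (4 ^ k * (1 / 4) ^ k) * (4 ^ k * 4 ^ k) := by ring
            _ = 4 ^ k * 4 ^ k := by rw [e1, one_mul]
        nlinarith [e1, e3]
      refine (ENNReal.ofReal_le_ofReal h1).trans ?_
      have h5 : ENNReal.ofReal (p ^ 2 / 100) = p2 ^ 2 / 100 := by
        rw [ENNReal.ofReal_div_of_pos (by norm_num), ENNReal.ofReal_pow hp0.le,
          hp, ENNReal.ofReal_toReal hp2top]
        norm_num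
      rw [h5]
      exact ENNReal.div_le_div_right (pow_le_pow_left' hp2H 2) 100
    have hZ := h_IN2 D out out' o e C r (fun _ => r) hOk hE hG.1 hG.2.1 hG'.1 hG'.2.1 hLO
      (fun _ => ⟨hr0, le_rfl⟩)
      (fun s t hst hts => hES D rfl hOk s t r (fun _ => r) hst hts hr0 fun _ => ⟨hr0, le_rfl⟩)
      hsmall
    have hmain := prob_part h_DET h_GIN h_GST h_LAM D hOk (fun _ => r) out out' o e hE hG hG'
      hCA hT hZ
    have hst := hSTk k r ((le_max_right _ _).trans hk) hr0 hr2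
    have e2n : (16 * 64 ^ (k - 1) : ℤ) = 2 * D.n := by
      change _ = 2 * (8 * 64 ^ (k - 1) : ℤ); ring
    have e4n : (32 * 64 ^ (k - 1) : ℤ) = 4 * D.n := by
      change _ = 4 * (8 * 64 ^ (k - 1) : ℤ); ring
    rw [e2n, e4n] at hst
    have h6 : ((4 * D.n : ℤ) : ℝ) * (46 / 100 * (pH D).toReal ^ 2) ≤
      (∑ j ∈ Finset.Ioc (-(2 * D.n)) (2 * D.n), (PN q (fun _ => r)).real {E |
        |Lam (splice (Bx D) (eA E) out) o e j| < D.A * D.w ∧
        Lam (splice (Bx D) (eA E) out) o e j = Lam (splice (Bx D) (eB E) out') o e j}) +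
        p ^ 2 / 100 * 64 ^ k := hmain.trans (add_le_add le_rfl hst)
    have h7 : (46 / 100 * p ^ 2) ≤ 46 / 100 * (pH D).toReal ^ 2 := by
      have := pow_le_pow_left₀ hp0.le hpP 2
      linarith
    have h8 : ((4 * D.n : ℤ) : ℝ) = 64 ^ k / 2 := by
      push_cast
      rw [hDn, h64]
      ring
    rw [h8] at h6
    have h9 : (64 : ℝ) ^ k / 2 * (46 / 100 * p ^ 2) ≤ 64 ^ k / 2 * (46 / 100 * (pH D).toReal ^ 2) :=
      mul_le_mul_of_nonneg_left h7 (by positivity)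
    have h10 : 0 ≤ p ^ 2 * (64 : ℝ) ^ k := by positivity
    linarith

end Pool.Agent.H77.INS.OVL
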