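import Pool.Agent.H95.INS.Targets2

/-!
# MP_57ddd5_pr: marginals and independence for the law `PN` (used by IN2)
-/

set_option autoImplicit false

open MeasureTheory ProbabilityTheory
open scoped ENNReal

namespace Pool.Agent.H77.INS

open Pool.Agent.H95.INS Pool.Agent.H99.NS Pool.Agent.H22.LPP
open Pool.Agent.H97.NF (PEnv eA eB PN pairLaw cl cl_nonneg cl_le_one)

/-- first and second environment -/
def pr (b : Bool) (E : PEnv) : Env := if b then eA E else eB E

theorem pr_true : pr true = eA := by funext E; rfl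

theorem pr_false : pr false = eB := by funext E; rfl

theorem meas_pr (b : Bool) : Measurable (pr b) := by
  cases b
  · rw [pr_false]
    exact measurable_pi_lambda _ fun x => measurable_snd.comp (measurable_pi_apply x)
  · rw [pr_true]
    exact measurable_pi_lambda _ fun x => measurable_fst.comp (measurable_pi_apply x)

theorem cl_add (r : ℝ) : ENNReal.ofReal (1 - cl r) + ENNReal.ofReal (cl r) = 1 := by
  rw [← ENNReal.ofReal_add (by linarith [cl_le_one r]) (cl_nonneg r)]
  simp

theorem pairLaw_fst (q r : ℝ) (t : Set ℕ) : pairLaw q r (Prod.fst ⁻¹' t) = geo q t := by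
  have h1 : ((geo q).map (fun k => (k, k))) (Prod.fst ⁻¹' t) = geo q t := by
    rw [Measure.map_apply measurable_from_nat (MeasurableSet.of_discrete)]
    rfl
  have h2 : ((geo q).prod (geo q)) (Prod.fst ⁻¹' t) = geo q t := by
    have : (Prod.fst ⁻¹' t : Set (ℕ × ℕ)) = t ×ˢ Set.univ := by ext x; simp
    rw [this, Measure.prod_prod, measure_univ, mul_one]
  unfold pairLaw
  simp only [Measure.coe_add, Measure.coe_smul, Pi.add_apply, Pi.smul_apply, h1, h2, smul_eq_mul]
  rw [← add_mul, cl_add, one_mul]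

theorem pairLaw_snd (q r : ℝ) (t : Set ℕ) : pairLaw q r (Prod.snd ⁻¹' t) = geo q t := by
  have h1 : ((geo q).map (fun k => (k, k))) (Prod.snd ⁻¹' t) = geo q t := by
    rw [Measure.map_apply measurable_from_nat (MeasurableSet.of_discrete)]
    rfl
  have h2 : ((geo q).prod (geo q)) (Prod.snd ⁻¹' t) = geo q t := by
    have : (Prod.snd ⁻¹' t : Set (ℕ × ℕ)) = Set.univ ×ˢ t := by ext x; simp
    rw [this, Measure.prod_prod, measure_univ, one_mul]
  unfold pairLaw
  simp only [Measure.coe_add, Measure.coe_smul, Pi.add_apply, Pi.smul_apply, h1, h2, smul_eq_mul]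
  rw [← add_mul, cl_add, one_mul]

theorem mp_pr (q : ℝ) (ρ : Site → ℝ) (b : Bool) : MeasurePreserving (pr b) (PN q ρ) (PE q) := by
  refine ⟨meas_pr b, ?_⟩
  refine Measure.eq_infinitePi (fun _ : Site => geo q) fun s t ht => ?_
  rw [Measure.map_apply (meas_pr b) (MeasurableSet.pi s.countable_toSet fun i _ => ht i)]
  cases b
  · have hset : pr false ⁻¹' ((s : Set Site).pi t) =
        (s : Set Site).pi fun i => (Prod.snd ⁻¹' t i : Set (ℕ × ℕ)) := by
      ext E; rw [pr_false]; rfl
    rw [hset]
    unfold PN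
    rw [Measure.infinitePi_pi _ fun i _ => MeasurableSet.of_discrete]
    exact Finset.prod_congr rfl fun i _ => pairLaw_snd q (ρ i) (t i)
  · have hset : pr true ⁻¹' ((s : Set Site).pi t) =
        (s : Set Site).pi fun i => (Prod.fst ⁻¹' t i : Set (ℕ × ℕ)) := by
      ext E; rw [pr_true]; rfl
    rw [hset]
    unfold PN
    rw [Measure.infinitePi_pi _ fun i _ => MeasurableSet.of_discrete]
    exact Finset.prod_congr rfl fun i _ => pairLaw_fst q (ρ i) (t i)

open Classical in
/-- the pair of environments equal to `E` on `A` and to `E'` outside -/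
noncomputable def spl (A : Set Site) (E E' : PEnv) : PEnv := fun x => if x ∈ A then E x else E' x

theorem meas_spl (A : Set Site) : Measurable (fun p : PEnv × PEnv => spl A p.1 p.2) := by
  classical
  refine measurable_pi_lambda _ fun x => ?_
  by_cases h : x ∈ A
  · have : (fun p : PEnv × PEnv => spl A p.1 p.2 x) = fun p => p.1 x := by
      funext p; unfold spl; rw [if_pos h]
    rw [this]
    fun_prop
  · have : (fun p : PEnv × PEnv => spl A p.1 p.2 x) = fun p => p.2 x := by
      funext p; unfold spl; rw [if_neg h]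
    rw [this]
    fun_prop

theorem mp_spl (q : ℝ) (ρ : Site → ℝ) (A : Set Site) :
    MeasurePreserving (fun p : PEnv × PEnv => spl A p.1 p.2) ((PN q ρ).prod (PN q ρ))
      (PN q ρ) := by
  classical
  refine ⟨meas_spl A, ?_⟩
  refine Measure.eq_infinitePi (fun x : Site => pairLaw q (ρ x)) fun s t ht => ?_
  rw [Measure.map_apply (meas_spl A) (MeasurableSet.pi s.countable_toSet fun i _ => ht i)]
  have hset : (fun p : PEnv × PEnv => spl A p.1 p.2) ⁻¹' ((s : Set Site).pi t) =
      ((s.filter (fun x => x ∈ A) : Finset Site) : Set Site).pi t ×ˢ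
        ((s.filter (fun x => x ∉ A) : Finset Site) : Set Site).pi t := by
    ext p
    simp only [Set.mem_preimage, Set.mem_pi, Set.mem_prod, Finset.coe_filter, Set.mem_ofPred_eq,
      Finset.mem_coe]
    constructor
    · intro h
      refine ⟨fun x hx => ?_, fun x hx => ?_⟩
      · have := h x hx.1
        unfold spl at this
        rwa [if_pos hx.2] at this
      · have := h x hx.1
        unfold spl at this
        rwa [if_neg hx.2] at this
    · rintro ⟨h1, h2⟩ x hx
      by_cases hA : x ∈ A
      · unfold spl; rw [if_pos hA]; exact h1 x ⟨hx, hA⟩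
      · unfold spl; rw [if_neg hA]; exact h2 x ⟨hx, hA⟩
  rw [hset, Measure.prod_prod]
  unfold PN
  rw [Measure.infinitePi_pi _ (fun i _ => ht i), Measure.infinitePi_pi _ (fun i _ => ht i),
    Finset.prod_filter_mul_prod_filter_not]

theorem dep_pr {A : Set Site} {P : Env → Prop} (h : DepOn A P) (b : Bool) {E E' : PEnv}
    (he : ∀ x ∈ A, E x = E' x) : P (pr b E) ↔ P (pr b E') := by
  refine iff_of_eq (h _ _ fun x hx => ?_)
  cases b
  · rw [pr_false]; unfold eB; rw [he x hx]
  · rw [pr_true]; unfold eA; rw [he x hx]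

/-- independence for `PN` -/
theorem ind (q : ℝ) (ρ : Site → ℝ) {A B : Set Site} (hAB : Disjoint A B) {P Q : Env → Prop}
    (hP : MeasurableSet {ω | P ω}) (hQ : MeasurableSet {ω | Q ω}) (hPA : DepOn A P)
    (hQB : DepOn B Q) (b b' : Bool) :
    PN q ρ {E | P (pr b E) ∧ Q (pr b' E)} = PE q {ω | P ω} * PE q {ω | Q ω} := by
  have m1 : MeasurableSet {E | P (pr b E)} := meas_pr b hP
  have m2 : MeasurableSet {E | Q (pr b' E)} := meas_pr b' hQ
  have e1 : PN q ρ {E | P (pr b E)} = PE q {ω | P ω} :=
    (mp_pr q ρ b).measure_preimage hP.nullMeasurableSet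
  have e2 : PN q ρ {E | Q (pr b' E)} = PE q {ω | Q ω} :=
    (mp_pr q ρ b').measure_preimage hQ.nullMeasurableSet
  have h1 := (mp_spl q ρ A).measure_preimage (m1.inter m2).nullMeasurableSet
  have h2 : (fun p : PEnv × PEnv => spl A p.1 p.2) ⁻¹'
      ({E | P (pr b E)} ∩ {E | Q (pr b' E)}) = {E | P (pr b E)} ×ˢ {E | Q (pr b' E)} := by
    ext p
    simp only [Set.mem_preimage, Set.mem_inter_iff, Set.mem_prod, Set.mem_ofPred_eq]
    refine and_congr (dep_pr hPA b fun x hx => ?_) (dep_pr hQB b' fun x hx => ?_)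
    · unfold spl; rw [if_pos hx]
    · unfold spl; rw [if_neg (Set.disjoint_right.1 hAB hx)]
  rw [← e1, ← e2, ← Measure.prod_prod, ← h2, h1]
  rfl

end Pool.Agent.H77.INS
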