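import Pool.Agent.H95.INS.Targets2

/-!
# MP_57ddd5_pr: module PND
-/

set_option autoImplicit false

open MeasureTheory ProbabilityTheory
open scoped ENNReal

namespace Pool.Agent.H77.INS.PND

open Pool.Agent.H95.INS Pool.Agent.H99.NS Pool.Agent.H22.LPP

/-- the set of sites and the threshold of a path -/
noncomputable def ag (q cc : ℝ) (s t : ℤ) (g : ℤ → ℤ) : Finset Site × ℝ :=
  ((Finset.Ioc s t).image fun r => (r, g r), par q (s, g s) (t, g t) + cc)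

theorem ag_congr (q cc : ℝ) (s t : ℤ) (hst : s ≤ t) (g g' : ℤ → ℤ)
    (h : ∀ r, s ≤ r → r ≤ t → g r = g' r) : ag q cc s t g = ag q cc s t g' := by
  unfold ag
  rw [h s le_rfl hst, h t hst le_rfl]
  congr 1
  refine Finset.image_congr ?_
  intro r hr
  rw [Finset.mem_coe, Finset.mem_Ioc] at hr
  simp only
  rw [h r hr.1.le hr.2]

theorem sum_ag (q cc : ℝ) (s t : ℤ) (g : ℤ → ℤ) (ω : Env) :
    ∑ x ∈ (ag q cc s t g).1, (ω x : ℝ) = wt ω s t g := by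
  unfold ag wt
  simp only
  rw [Finset.sum_image]
  intro r _ r' _ h
  exact (Prod.mk.inj h).1

/-- the admissible paths -/
def Adm (R s t : ℤ) (g : ℤ → ℤ) : Prop := IsPath s t g ∧ Stay R s t g

theorem fin_ag (q cc : ℝ) (R s t : ℤ) (hst : s ≤ t) :
    {a | ∃ g, Adm R s t g ∧ a = ag q cc s t g}.Finite := by
  classical
  let ext : (↥(Finset.Icc s t) → ↥(Finset.Icc (-R) R)) → ℤ → ℤ :=
    fun φ r => if h : r ∈ Finset.Icc s t then (φ ⟨r, h⟩).1 else 0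
  refine (Set.finite_range fun φ => ag q cc s t (ext φ)).subset ?_
  rintro a ⟨g, hg, rfl⟩
  have hmem : ∀ r : ↥(Finset.Icc s t), g r.1 ∈ Finset.Icc (-R) R := by
    intro r
    have h1 := Finset.mem_Icc.mp r.2
    have h2 := abs_le.mp (hg.2 r.1 h1.1 h1.2).le
    exact Finset.mem_Icc.mpr h2
  refine ⟨fun r => ⟨g r.1, hmem r⟩, ?_⟩
  refine ag_congr q cc s t hst _ _ fun r h1 h2 => ?_
  simp only [ext]
  rw [dif_pos (Finset.mem_Icc.mpr ⟨h1, h2⟩)]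

theorem pf_PND (h_BK : T_BK) : T_PND := by
  classical
  intro D s t c hq0 hq1 hst
  set cc : ℝ := c * D.H * D.f with hcc
  set R : ℤ := 16 * D.A * D.w with hR
  have hfin := fin_ag D.q cc R s t hst
  set F : Finset (Finset Site × ℝ) := hfin.toFinset with hF
  have hmemF : ∀ a, a ∈ F ↔ ∃ g, Adm R s t g ∧ a = ag D.q cc s t g := by
    intro a
    rw [hF, Set.Finite.mem_toFinset]
    rfl
  have hthr : ∀ (ω : Env) (g : ℤ → ℤ), (ag D.q cc s t g).2 ≤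
      ∑ x ∈ (ag D.q cc s t g).1, (ω x : ℝ) ↔ cc ≤ Exc D.q ω s t g := by
    intro ω g
    rw [sum_ag]
    unfold ag Exc
    simp only
    constructor <;> intro h <;> linarith
  have h1 := h_BK D.q F hq0 hq1
  have e2 : {ω : Env | ∃ a ∈ F, a.2 ≤ ∑ x ∈ a.1, (ω x : ℝ)} =
      {ω | ∃ g, IsPath s t g ∧ Stay R s t g ∧ cc ≤ Exc D.q ω s t g} := by
    ext ω
    simp only [Set.mem_ofPred_eq]
    constructor
    · rintro ⟨a, ha, hle⟩
      obtain ⟨g, hg, rfl⟩ := (hmemF a).mp ha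
      exact ⟨g, hg.1, hg.2, (hthr ω g).mp hle⟩
    · rintro ⟨g, hg1, hg2, hg3⟩
      exact ⟨_, (hmemF _).mpr ⟨g, ⟨hg1, hg2⟩, rfl⟩, (hthr ω g).mpr hg3⟩
  have e1 : {ω : Env | ¬ ND D ω s t c} ⊆ {ω | ∃ a ∈ F, ∃ b ∈ F, Disjoint a.1 b.1 ∧
      a.2 ≤ ∑ x ∈ a.1, (ω x : ℝ) ∧ b.2 ≤ ∑ x ∈ b.1, (ω x : ℝ)} := by
    intro ω hω
    simp only [Set.mem_ofPred_eq] at hω ⊢
    unfold ND at hω
    push Not at hω
    obtain ⟨g, g', hg, hg', hs, hs', he, he', hdis⟩ := hω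
    refine ⟨_, (hmemF _).mpr ⟨g, ⟨hg, hs⟩, rfl⟩, _, (hmemF _).mpr ⟨g', ⟨hg', hs'⟩, rfl⟩, ?_,
      (hthr ω g).mpr he, (hthr ω g').mpr he'⟩
    rw [Finset.disjoint_left]
    intro x hx hx'
    unfold ag at hx hx'
    simp only [Finset.mem_image, Finset.mem_Ioc] at hx hx'
    obtain ⟨r, hr, rfl⟩ := hx
    obtain ⟨r', hr', h3⟩ := hx'
    obtain ⟨h4, h5⟩ := Prod.mk.inj h3
    subst h4
    exact hdis r' hr.1 hr.2 h5.symm
  rw [e2] at h1
  exact (measure_mono e1).trans h1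

end Pool.Agent.H77.INS.PND
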